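import Pool.Agent.V1137.AM.B
import Pool.Agent.V11285.W4

/-!
# Goldbach representations of the multiples of `q`: almost all moduli `q`, at all scales simultaneously

There is ONE set `B` of exceptional moduli, with at most `X / (log X)^A` members up to `X` for every `A` and all
large `X`, such that every modulus `q` outside `B` satisfies the assertion of the problem for ALL real
`x ≥ max(x₀, q)` at the same time: the whole range `q ≤ x` is allowed, and for `x < q (log x)^C` no exceptional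
multiples at all. As a consequence, for almost every real `α > 0` the same holds for all integers `q` near the
numbers `α v_n`.

Proof. Let `F` be the set of the exceptional even integers (the formula of Hardy and Littlewood fails, up to the
factor `1 ± ε`); it has at most `N / (log N)^U` members up to `N`, for every `U` (starting library, `W93.GB.fam`).
The number of the pairs `(q, n)` with `n ∈ F`, `n ≤ 2^(j+1)` and `q ∣ n` is at most the sum of the numbers of
divisors of the members of `F`, hence small by the inequality of Cauchy. This bounds the number of the `q ≤ X` that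
are bad at the level `j`, and the bounds can be summed over all levels `j` with `2^(j+1) > X / (log X)^(A+1)`; the
moduli up to `X / (log X)^(A+1)` are counted trivially.
-/

set_option autoImplicit false

namespace Pool.Agent.Results.MP_92f640_nt.AlmostAllModuliAllScales

open Filter MeasureTheory
open Pool.Agent.H560R3.GB (g HL)

/-- the formula of Hardy and Littlewood holds for `n` up to the factor `1 ± ε`, and `n` is a sum of two distinct
primes -/
def Good (ε : ℝ) (n : ℕ) : Prop :=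
  |(g n : ℝ) - HL n| ≤ ε * HL n ∧ ∃ p p' : ℕ, p.Prime ∧ p'.Prime ∧ p ≠ p' ∧ p + p' = n

/-- The even multiples `n` of `q` with `0 < n ≤ x` that are not good. -/
def exceptional (ε x : ℝ) (q : ℕ) : Set ℕ :=
  {n : ℕ | 0 < n ∧ (n : ℝ) ≤ x ∧ 2 ∣ n ∧ q ∣ n ∧ ¬ Good ε n}

/-- The even multiples `n` of `q` with `x / 2 < n ≤ x` and `g n < δ n / (log n)²`, as in the problem. -/
def few (δ x : ℝ) (q : ℕ) : Set ℕ :=
  {n : ℕ | x / 2 < n ∧ (n : ℝ) ≤ x ∧ 2 ∣ n ∧ q ∣ n ∧ (g n : ℝ) < δ * (n / Real.log n ^ 2)}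

/-- `q` is regular at all scales: for ALL real `x` with `x ≥ x₀` and `x ≥ q`,
(1) all but at most `x / (q (log x)^C)` of the even multiples `n ≤ x` of `q` are good,
(2) all but at most `x / (8 q)` of the even multiples `n` of `q` in `(x / 2, x]` satisfy
`g n ≥ n / (2 (log n)²)` (the assertion of the problem for `q` and `x`, with `δ = 1 / 2`),
(3) if `x < q (log x)^C`, then all even multiples `n ≤ x` of `q` are good. -/
def RegularAtAllScales (ε : ℝ) (C : ℕ) (x₀ : ℝ) (q : ℕ) : Prop :=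
  ∀ x : ℝ, x₀ ≤ x → (q : ℝ) ≤ x →
    ((exceptional ε x q).Finite ∧ ((exceptional ε x q).ncard : ℝ) ≤ x / (q * Real.log x ^ C)) ∧
    ((few (1 / 2) x q).Finite ∧ ((few (1 / 2) x q).ncard : ℝ) ≤ x / (8 * q)) ∧
    (x < q * Real.log x ^ C → ∀ n : ℕ, 0 < n → (n : ℝ) ≤ x → 2 ∣ n → q ∣ n → Good ε n)

/-- `v n ≥ 1` and `log (v n) ≥ n ^ δ` for some `δ > 0` and all large `n`, for example `v n = b ^ n`, `b > 1` -/
def Fast (v : ℕ → ℝ) : Prop := (∀ n, 1 ≤ v n) ∧ ∃ δ : ℝ, 0 < δ ∧ ∀ᶠ n : ℕ in atTop, (n : ℝ) ^ δ ≤ Real.log (v n)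

theorem HL_nonneg (n : ℕ) : 0 ≤ HL n := by
  have h2 := Pool.Agent.W93.GB.one_le_sing n
  unfold Pool.Agent.H560R3.GB.HL
  positivity

/-- **Theorem.** Let `ε > 0`, `C` and `K` be given. There are a set `B` of integers larger than `K` and `x₀` such that
(1) for every `A` and all large `X` at most `X / (log X)^A` of the integers `q ≤ X` belong to `B`;
(2) every positive integer `q` outside `B` is regular at all scales;
(3) for every fast sequence `v`, every `b` and almost every real `α > 0`, for all large `n` all positive integers `q`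
with `|q - α v_n| ≤ (log v_n)^b` are regular at all scales. -/
theorem result (ε : ℝ) (hε : 0 < ε) (C K : ℕ) :
    ∃ (B : Set ℕ) (x₀ : ℝ),
      (∀ q ∈ B, K < q) ∧
      (∀ A : ℕ, ∃ X₀ : ℕ, ∀ X : ℕ, X₀ ≤ X → ({q : ℕ | 1 ≤ q ∧ q ≤ X ∧ q ∈ B}.ncard : ℝ) ≤ X / Real.log X ^ A) ∧
      (∀ q : ℕ, 1 ≤ q → q ∉ B → RegularAtAllScales ε C x₀ q) ∧
      ∀ v : ℕ → ℝ, Fast v → ∀ b : ℕ, ∀ᵐ α : ℝ, 0 < α → ∃ n₀ : ℕ, ∀ n : ℕ, n₀ ≤ n → ∀ q : ℕ, 1 ≤ q →
        |(q : ℝ) - α * v n| ≤ Real.log (v n) ^ b → RegularAtAllScales ε C x₀ q := by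
  classical
  obtain ⟨ε', hε'⟩ : ∃ ε', ε' = min ε (1 / 2) := ⟨_, rfl⟩
  have hε0 : 0 < ε' := by rw [hε']; exact lt_min hε (by norm_num)
  obtain ⟨J, hJ⟩ := Pool.Agent.V1137.AM.small_B ε' hε0 (C + 1) K
  obtain ⟨j₀, hj₀⟩ : ∃ j₀, j₀ = max J 1 := ⟨_, rfl⟩
  have hj1 : 1 ≤ j₀ := by rw [hj₀]; exact le_max_right _ _
  obtain ⟨x₀, hx₀⟩ : ∃ x₀ : ℝ, x₀ = max ((2 : ℝ) ^ j₀) (Real.exp 8) := ⟨_, rfl⟩
  have hreg : ∀ q : ℕ, 1 ≤ q → q ∉ Pool.Agent.V1137.AM.B ε' (C + 1) j₀ → RegularAtAllScales ε C x₀ q := by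
    intro q hq hqB x hx hqx
    have hx1 : (2 : ℝ) ^ j₀ ≤ x := (le_max_left _ _).trans (by rw [← hx₀]; exact hx)
    have hx2 : Real.exp 8 ≤ x := (le_max_right _ _).trans (by rw [← hx₀]; exact hx)
    have hxpos : 0 < x := lt_of_lt_of_le (Real.exp_pos _) hx2
    have hl8 : 8 ≤ Real.log x := by rwa [Real.le_log_iff_exp_le hxpos]
    have hq0 : (0 : ℝ) < q := by exact_mod_cast hq
    obtain ⟨hfin, hcard⟩ := Pool.Agent.V1137.AM.good_q hj1 hq hqB hx1 hqx
    have hl0 : 0 < Real.log x := by linarith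
    have hlC : 1 ≤ Real.log x ^ C := one_le_pow₀ (by linarith)
    have hle8 : ((Pool.Agent.V1137.AM.E ε' x q).ncard : ℝ) ≤ x / (8 * (q * Real.log x ^ C)) := by
      refine hcard.trans ?_
      apply div_le_div_of_nonneg_left hxpos.le (by positivity)
      rw [pow_succ]
      have : 0 ≤ (q : ℝ) * Real.log x ^ C := by positivity
      nlinarith
    have hsub1 : exceptional ε x q ⊆ Pool.Agent.V1137.AM.E ε' x q := by
      rintro n ⟨a1, a2, a3, a4, a5⟩
      refine ⟨a1, a2, a3, a4, ?_⟩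
      rintro ⟨b1, b2⟩
      apply a5
      refine ⟨b1.trans ?_, b2⟩
      apply mul_le_mul_of_nonneg_right _ (HL_nonneg n)
      rw [hε']; exact min_le_left _ _
    have hsub2 : few (1 / 2) x q ⊆ Pool.Agent.V1137.AM.E ε' x q := by
      rintro n ⟨a1, a2, a3, a4, a5⟩
      have hn0 : (0 : ℝ) < n := by linarith
      refine ⟨by exact_mod_cast hn0, a2, a3, a4, ?_⟩
      rintro ⟨b1, _⟩
      have h1 : (n : ℝ) / Real.log n ^ 2 ≤ HL n := by
        have h2 := Pool.Agent.W93.GB.one_le_sing n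
        have h3 : (0 : ℝ) ≤ (n : ℝ) / Real.log n ^ 2 := by positivity
        unfold Pool.Agent.H560R3.GB.HL
        nlinarith
      have h3 : (0 : ℝ) ≤ (n : ℝ) / Real.log n ^ 2 := by positivity
      have h2 : ε' ≤ 1 / 2 := by rw [hε']; exact min_le_right _ _
      have h4 := (abs_le.1 b1).1
      nlinarith
    refine ⟨⟨hfin.subset hsub1, ?_⟩, ⟨hfin.subset hsub2, ?_⟩, ?_⟩
    · have h1 : ((exceptional ε x q).ncard : ℝ) ≤ (Pool.Agent.V1137.AM.E ε' x q).ncard := by
        exact_mod_cast Set.ncard_le_ncard hsub1 hfin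
      refine h1.trans (hle8.trans ?_)
      apply div_le_div_of_nonneg_left hxpos.le (by positivity)
      have : 0 ≤ (q : ℝ) * Real.log x ^ C := by positivity
      linarith
    · have h1 : ((few (1 / 2) x q).ncard : ℝ) ≤ (Pool.Agent.V1137.AM.E ε' x q).ncard := by
        exact_mod_cast Set.ncard_le_ncard hsub2 hfin
      refine h1.trans (hle8.trans ?_)
      apply div_le_div_of_nonneg_left hxpos.le (by positivity)
      have : (q : ℝ) ≤ q * Real.log x ^ C := le_mul_of_one_le_right hq0.le hlC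
      linarith
    · intro hlt n hn hnx h2n hqn
      by_contra hcon
      have hmem : n ∈ Pool.Agent.V1137.AM.E ε' x q := hsub1 ⟨hn, hnx, h2n, hqn, hcon⟩
      have h1 : 1 ≤ (Pool.Agent.V1137.AM.E ε' x q).ncard := by
        exact (Set.ncard_pos hfin).2 ⟨n, hmem⟩
      have h2 : (1 : ℝ) ≤ x / (8 * (q * Real.log x ^ C)) :=
        le_trans (by exact_mod_cast h1) hle8
      rw [le_div_iff₀ (by positivity)] at h2
      have : 0 < (q : ℝ) * Real.log x ^ C := by positivity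
      linarith
  have hset : ∀ X : ℕ, ({q : ℕ | 1 ≤ q ∧ q ≤ X ∧ q ∈ Pool.Agent.V1137.AM.B ε' (C + 1) j₀} : Set ℕ) =
      (((Finset.Icc 1 X).filter (fun q => q ∈ Pool.Agent.V1137.AM.B ε' (C + 1) j₀) : Finset ℕ) : Set ℕ) := by
    intro X
    ext q
    simp only [Set.mem_ofPred_eq, Finset.coe_filter, Finset.mem_Icc]
    tauto
  have hcount : ∀ A : ℕ, ∃ X₀ : ℕ, ∀ X : ℕ, X₀ ≤ X →
      ({q : ℕ | 1 ≤ q ∧ q ≤ X ∧ q ∈ Pool.Agent.V1137.AM.B ε' (C + 1) j₀}.ncard : ℝ) ≤ X / Real.log X ^ A := by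
    intro A
    obtain ⟨X₀, hX₀⟩ := Pool.Agent.V1137.AM.count_B ε' hε0 (C + 1) j₀ A
    refine ⟨X₀, fun X hX => ?_⟩
    rw [hset, Set.ncard_coe_finset]
    exact hX₀ X hX
  refine ⟨Pool.Agent.V1137.AM.B ε' (C + 1) j₀, x₀, hJ j₀ (by rw [hj₀]; exact le_max_left _ _), hcount, hreg,
    fun v hv b => ?_⟩
  filter_upwards [Pool.Agent.V11285.W4.ae_log (fun q => q ∈ Pool.Agent.V1137.AM.B ε' (C + 1) j₀) hcount hv.1 hv.2 b]
    with α hα hα0
  obtain ⟨n₀, hn₀⟩ := hα hα0
  exact ⟨n₀, fun n hn q hq hd => hreg q hq (hn₀ n hn q hq hd)⟩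

end Pool.Agent.Results.MP_92f640_nt.AlmostAllModuliAllScales
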