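import Pool.Agent.Results.MP_92f640_nt.AlmostAllModuliAllScales
import Pool.Agent.V11312.PW.Digits

/-!
# Goldbach representations of the multiples of `q`: ALL moduli `q` in random residue classes, at all scales

Let `m_0 | m_1 | m_2 | …`, `m_j` the product of the first `j` of arbitrary bases `b_i + 2 ≥ 2` (for example `m_j = a ^ j`, or
`m_j = (j + 1)!`), and let `n_j` be the residue class modulo `m_j` with independent uniform digits `ω_0, …, ω_(j-1)` (that is, of a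
random `a`-adic, or profinite, integer). For almost all `ω`, for all `ε > 0` and `C` there is ONE `x₀` such that for every `B` and
all large `j`, ALL moduli `q ≡ n_j (mod m_j)` with `1 ≤ q ≤ m_j (log m_j) ^ B` satisfy the assertion of the problem for ALL real
`x ≥ max(x₀, q)`.

The exceptional moduli of `AlmostAllModuliAllScales` are thinner than any power of the logarithm; the classes are taken care of by
`V11312.PD.ae_classes`.
-/

set_option autoImplicit false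

namespace Pool.Agent.Results.MP_92f640_nt.ModuliInResidueClasses

open Filter MeasureTheory
open Pool.Agent.Results.MP_92f640_nt.AlmostAllModuliAllScales (Good exceptional few RegularAtAllScales HL_nonneg)
open Pool.Agent.V11312.PD

lemma Good.mono {ε ε' : ℝ} (h : ε' ≤ ε) {n : ℕ} (hn : Good ε' n) : Good ε n :=
  ⟨hn.1.trans (mul_le_mul_of_nonneg_right h (HL_nonneg n)), hn.2⟩

lemma Regular.mono {ε ε' : ℝ} (h : ε' ≤ ε) {C : ℕ} {x₀ : ℝ} {q : ℕ} (hq : RegularAtAllScales ε' C x₀ q) :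
    RegularAtAllScales ε C x₀ q := by
  intro x hx hqx
  obtain ⟨h1, h2, h3⟩ := hq x hx hqx
  have hsub : exceptional ε x q ⊆ exceptional ε' x q := by
    rintro n ⟨a1, a2, a3, a4, a5⟩
    exact ⟨a1, a2, a3, a4, fun hc => a5 (Good.mono h hc)⟩
  refine ⟨⟨h1.1.subset hsub, ?_⟩, h2, fun hlt n hn hnx h2n hqn => Good.mono h (h3 hlt n hn hnx h2n hqn)⟩
  have h4 : ((exceptional ε x q).ncard : ℝ) ≤ (exceptional ε' x q).ncard := by
    exact_mod_cast Set.ncard_le_ncard hsub h1.1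
  exact h4.trans h1.2

/-- **All moduli in random residue classes.** For almost all digits `ω`: for all `ε > 0` and `C` there is `x₀` such that for every
`B` and all large `j` ALL positive integers `q ≡ n_j (mod m_j)`, `q ≤ m_j (log m_j) ^ B`, are regular at all scales. Examples:
`m_j = a ^ j` and `m_j = (j + 1)!`. -/
theorem result :
    (∀ b : ℕ → ℕ, ∀ᵐ ω ∂(law b), ∀ ε : ℝ, 0 < ε → ∀ C : ℕ, ∃ x₀ : ℝ, ∀ B : ℕ, ∃ j₀ : ℕ, ∀ j : ℕ, j₀ ≤ j →
      ∀ q : ℕ, 1 ≤ q → InClass b ω B j q → RegularAtAllScales ε C x₀ q) ∧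
    (∀ a : ℕ, 2 ≤ a → ∀ j, modulus (fun _ => a - 2) j = a ^ j) ∧
    (∀ j : ℕ, modulus (fun i => i) j = (j + 1).factorial) := by
  classical
  refine ⟨fun b => ?_, modulus_const, modulus_id⟩
  have hex : ∀ i : ℕ × ℕ, ∃ (S : Set ℕ) (x₀ : ℝ),
      (∀ A : ℕ, ∃ X₀ : ℕ, ∀ X : ℕ, X₀ ≤ X → ({q : ℕ | 1 ≤ q ∧ q ≤ X ∧ q ∈ S}.ncard : ℝ) ≤ X / Real.log X ^ A) ∧
      (∀ q : ℕ, 1 ≤ q → q ∉ S → RegularAtAllScales (1 / ((i.1 : ℝ) + 1)) i.2 x₀ q) := by
    intro i
    obtain ⟨S, x₀, -, h2, h3, -⟩ :=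
      AlmostAllModuliAllScales.result (1 / ((i.1 : ℝ) + 1)) (by positivity) i.2 0
    exact ⟨S, x₀, h2, h3⟩
  choose S x₀ hS hreg using hex
  have hall := ae_family b (ι := ℕ × ℕ) (fun i k => 1 ≤ k → k.toNat ∉ S i) (fun i U => by
    obtain ⟨X₀, hX₀⟩ := hS i U
    refine ⟨X₀, fun X hX => le_trans ?_ (hX₀ X hX)⟩
    have hfin : ({q : ℕ | 1 ≤ q ∧ q ≤ X ∧ q ∈ S i} : Set ℕ).Finite :=
      (Set.finite_Iic X).subset fun q hq => hq.2.1
    have hsub : {k : ℤ | |k| ≤ (X : ℤ) ∧ ¬ (1 ≤ k → k.toNat ∉ S i)} ⊆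
        (fun q : ℕ => (q : ℤ)) '' {q : ℕ | 1 ≤ q ∧ q ≤ X ∧ q ∈ S i} := by
      rintro k ⟨hk1, hk2⟩
      push Not at hk2
      have h0 : ((k.toNat : ℕ) : ℤ) = k := Int.toNat_of_nonneg (by omega)
      have h1 := (abs_le.1 hk1).2
      exact ⟨k.toNat, ⟨by omega, by omega, hk2.2⟩, h0⟩
    have h5 : {k : ℤ | |k| ≤ (X : ℤ) ∧ ¬ (1 ≤ k → k.toNat ∉ S i)}.ncard ≤
        {q : ℕ | 1 ≤ q ∧ q ≤ X ∧ q ∈ S i}.ncard :=
      (Set.ncard_le_ncard hsub (hfin.image _)).trans (Set.ncard_image_le hfin)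
    exact_mod_cast h5)
  filter_upwards [hall] with ω hω ε hε C
  obtain ⟨N, hN⟩ := exists_nat_one_div_lt hε
  refine ⟨x₀ (N, C), fun B => ?_⟩
  obtain ⟨j₀, hj₀⟩ := hω (N, C) B
  refine ⟨j₀, fun j hj q hq hcl => ?_⟩
  have h1 := hj₀ j hj q hcl (by exact_mod_cast hq)
  rw [Int.toNat_natCast] at h1
  exact Regular.mono hN.le (hreg (N, C) q hq h1)

end Pool.Agent.Results.MP_92f640_nt.ModuliInResidueClasses
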