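import Pool.Agent.V11113.MR.Gold
import Pool.Agent.V11113.MR.BilFam

/-!
# Goldbach lower bounds for the multiples of `q` in thin families

Let `n i = r (c + v i)`, where `v i` runs through the least residues modulo `m` of a family with small exponential sums. For
all `q ≤ log ^ A m` and all `x ≥ m / log ^ A m` all the even multiples `n` of `q` with `x / 2 < n ≤ x` among the members of the
family satisfy `g(n) ≥ (1 - ε) n / log ^ 2 n`, and `g(n)` is given by the formula of Hardy and Littlewood with a relative error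
of at most `ε`, with at most `(#s / m) x / (q log ^ U m)` exceptions.

The families are the families of the least residues modulo `m` (an arbitrary integer) of residues with exponential sums
`O(#s m ^ (-δ))`, with an arbitrarily small `δ > 0` (`Small`). Examples (part (2)): the values `x · Q y + f(x) + g(y)` modulo a
prime `p` at the pairs of vectors of two arbitrary sets with `#A #A' ≥ p ^ (d + 2 δ)`; for `d = 1` this contains the products
of the elements of two arbitrary sets with `#A #A' ≥ p ^ (1 + 2 δ)`. Nothing else is assumed about the families; they may have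
as few as about `m ^ (2 δ)` different members.

From the starting files: laws of random integers and Goldbach's problem for them (`Pool.Agent.W93`). New: the families of
residues, `Pool.Agent.V11113.MR`.
-/

set_option autoImplicit false

namespace Pool.Agent.Results.MP_92f640_nt.ThinFamilies

open Finset Matrix

/-- The exponential sums over the family `v i ∈ ℤ / m`, `i ∈ s`, at all nonzero frequencies are at most `#s m ^ (-δ)`.
(`ZMod.stdAddChar` is the character `e(x / m)`.) -/
def Small (m : ℕ) [NeZero m] (δ : ℝ) {ι : Type} (s : Finset ι) (v : ι → ZMod m) : Prop :=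
  ∀ b : ZMod m, b ≠ 0 → ‖∑ x ∈ s, (ZMod.stdAddChar (b * v x) : ℂ)‖ ≤ s.card * (m : ℝ) ^ (-δ)

/-- families of values of bilinear forms -/
theorem small_bil (p : ℕ) [NeZero p] (hp : p.Prime) (δ : ℝ) (d : ℕ) (A A' : Finset (Fin d → ZMod p))
    (Q : Matrix (Fin d) (Fin d) (ZMod p)) (hQ : IsUnit Q.det) (h : (p : ℝ) ^ (d + 2 * δ) ≤ A.card * A'.card)
    (f g : (Fin d → ZMod p) → ZMod p) : Small p δ (A ×ˢ A') (fun z => z.1 ⬝ᵥ Q.mulVec z.2 + f z.1 + g z.2) := by
  have : Fact p.Prime := ⟨hp⟩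
  exact fun b hb => Pool.Agent.V11113.MR.bil_small δ p d A A' Q hQ f g h b hb

/-- The twin prime constant `C₂ = ∏_{p > 2} (1 - 1 / (p - 1) ^ 2)`: the infimum (the limit) of the
decreasing partial products over the primes `3 ≤ p ≤ z`. -/
noncomputable def C₂ : ℝ := ⨅ z : ℕ, ∏ p ∈ (Icc 3 z).filter Nat.Prime, (1 - 1 / ((p : ℝ) - 1) ^ 2)

/-- The prediction `2 C₂ ∏_{p ∣ n, p > 2} (p - 1) / (p - 2) n / log ^ 2 n` of Hardy and Littlewood. -/
noncomputable def S (n : ℕ) : ℝ :=
  2 * C₂ * (∏ p ∈ n.primeFactors.filter (fun p => 2 < p), ((p : ℝ) - 1) / ((p : ℝ) - 2)) * (n / Real.log n ^ 2)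

/-- The number of ordered representations of `n` as a sum of two primes. -/
def g (n : ℕ) : ℕ := ((antidiagonal n).filter (fun q : ℕ × ℕ => q.1.Prime ∧ q.2.Prime)).card

/-- The bound `g(n) ≥ (1 - ε) n / log ^ 2 n`, and the asymptotic formula with a relative error of at most `ε`. -/
def Good (ε : ℝ) (n : ℕ) : Prop :=
  (1 - ε) * (n / Real.log n ^ 2) ≤ (g n : ℝ) ∧ |(g n : ℝ) - S n| ≤ ε * S n

lemma good_of (ε : ℝ) (n : ℕ) (h : |(g n : ℝ) - S n| ≤ ε * S n) : Good ε n := by
  refine ⟨?_, h⟩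
  have h1 : (1 - ε) * S n ≤ (g n : ℝ) := by
    have := (abs_le.1 h).1
    linarith
  have h2 : (0 : ℝ) ≤ n / Real.log n ^ 2 := by positivity
  have h3 : n / Real.log n ^ 2 ≤ S n := by
    have h4 := Pool.Agent.W93.GB.one_le_sing n
    have h5 : S n = Pool.Agent.H560R3.GB.sing n * (n / Real.log n ^ 2) := rfl
    rw [h5]
    nlinarith
  rcases le_or_gt ε 1 with he | he
  · exact (mul_le_mul_of_nonneg_left h3 (by linarith)).trans h1
  · refine le_trans ?_ (Nat.cast_nonneg _)
    exact mul_nonpos_of_nonpos_of_nonneg (by linarith) h2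

open Classical in
/-- Let `r ≥ 1`, `A`, `b`, `U`, `δ > 0` and `ε > 0` be fixed.

(1) Let `m` be large, let `v i ∈ ℤ / m`, `i ∈ s`, be an ARBITRARY finite family with exponential sums at most
`#s m ^ (-δ)`, let `c` be an integer with `|c| ≤ b m`, let `1 ≤ q ≤ log ^ A m` and let `x ≥ m / log ^ A m`. Consider the numbers
`n = r (c + (least residue of v i))`. Among those which are even multiples of `q` with `x / 2 < n ≤ x`, all but at most
`(#s / m) x / (q log ^ U m)` satisfy `g(n) ≥ (1 - ε) n / log ^ 2 n`, and Hardy and Littlewood's formula for `g(n)` with a relative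
error of at most `ε`.

(2) Let `p` be a prime, `d` arbitrary, let `A` and `A'` be arbitrary sets of vectors modulo `p` with
`#A #A' ≥ p ^ (d + 2 δ)`, let `Q` be an invertible matrix and let `f` and `g` be arbitrary functions. Then the family
`x · Q y + f(x) + g(y)`, `x ∈ A`, `y ∈ A'`, has exponential sums at most `#A #A' p ^ (-δ)`. -/
theorem result (r A b U : ℕ) (hr : 1 ≤ r) (δ : ℝ) (hδ : 0 < δ) (ε : ℝ) (hε : 0 < ε) :
    (∃ m₀ : ℕ, ∀ (m : ℕ) [NeZero m], m₀ ≤ m → ∀ (ι : Type) (s : Finset ι) (v : ι → ZMod m), Small m δ s v →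
      ∀ c : ℤ, |c| ≤ b * m → ∀ q : ℕ, 1 ≤ q → (q : ℝ) ≤ Real.log m ^ A → ∀ x : ℝ, m / Real.log m ^ A ≤ x →
      ((s.filter fun i => ∃ n : ℕ, (n : ℤ) = r * (c + (v i).val) ∧ x / 2 < n ∧ (n : ℝ) ≤ x ∧ Even n ∧ q ∣ n ∧
        ¬ Good ε n).card : ℝ) ≤ s.card / m * (x / (q * Real.log m ^ U))) ∧
    (∀ (p : ℕ) [NeZero p], p.Prime → ∀ (d : ℕ) (A A' : Finset (Fin d → ZMod p)) (Q : Matrix (Fin d) (Fin d) (ZMod p)),
      IsUnit Q.det → (p : ℝ) ^ (d + 2 * δ) ≤ A.card * A'.card → ∀ f g : (Fin d → ZMod p) → ZMod p,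
      Small p δ (A ×ˢ A') (fun z => z.1 ⬝ᵥ Q.mulVec z.2 + f z.1 + g z.2)) := by
  refine ⟨?_, fun p _ hp d A A' Q hQ h f g => small_bil p hp δ d A A' Q hQ h f g⟩
  obtain ⟨m₀, h⟩ := Pool.Agent.V11113.MR.gold r b (U + 2 * A) hr δ ε hδ hε
  refine ⟨m₀ + 3, fun m _ hm ι s v hv c hc q hq1 hq2 x hx => ?_⟩
  have hm0 : (0 : ℝ) < m := by exact_mod_cast (by omega : 0 < m)
  have hlog : 0 < Real.log m := Real.log_pos (by exact_mod_cast (by omega : 1 < m))
  have hLA : 0 < Real.log m ^ A := by positivity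
  have hx0 : 0 < x := lt_of_lt_of_le (by positivity) hx
  have hq0 : (0 : ℝ) < q := by exact_mod_cast hq1
  have h1 := h m (by omega) ι s v hv c hc (fun i => ∃ n : ℕ, (n : ℤ) = r * (c + (v i).val) ∧ x / 2 < n ∧ (n : ℝ) ≤ x ∧
    Even n ∧ q ∣ n ∧ ¬ Good ε n) (by
      rintro i _ ⟨n, e, hn1, _, hn2, _, hn3⟩
      rw [← e, Int.toNat_natCast]
      have hn0 : 0 < n := by
        have : (0 : ℝ) < n := by linarith
        exact_mod_cast this
      refine ⟨by exact_mod_cast hn0, by exact_mod_cast hn2.two_dvd, fun hcon => hn3 (good_of ε n hcon)⟩)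
  refine h1.trans ?_
  rw [div_mul_div_comm, div_le_div_iff₀ (by positivity) (by positivity)]
  have h2 : (m : ℝ) * q ≤ x * Real.log m ^ (2 * A) := by
    rw [div_le_iff₀ hLA] at hx
    calc (m : ℝ) * q ≤ (x * Real.log m ^ A) * Real.log m ^ A := mul_le_mul hx hq2 hq0.le (by positivity)
      _ = x * Real.log m ^ (2 * A) := by rw [two_mul, pow_add]; ring
  have h3 : 0 ≤ (s.card : ℝ) * Real.log m ^ U := by positivity
  calc (s.card : ℝ) * (m * (q * Real.log m ^ U)) = (s.card * Real.log m ^ U) * (m * q) := by ring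
    _ ≤ (s.card * Real.log m ^ U) * (x * Real.log m ^ (2 * A)) := mul_le_mul_of_nonneg_left h2 h3
    _ = s.card * x * Real.log m ^ (U + 2 * A) := by rw [pow_add]; ring

end Pool.Agent.Results.MP_92f640_nt.ThinFamilies
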